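import Pool.Agent.H75.Conf21.Tab

/-!
There are at least 29 pairwise non-isomorphic geometric `(21_4)` configurations.
-/

namespace Pool.Agent.Results.MP_6cabfd_co.ManyConfigurations

open H75C

/-- There are 29 pairwise non-isomorphic combinatorial `(21_4)` configurations each of which is the
incidence structure of 21 distinct points and 21 distinct lines of the real projective plane. -/
theorem result : ∃ c : Fin 29 → Fin 21 → Fin 21 → Prop,
    (∀ i, IsConf (c i) ∧ Geometric (c i)) ∧ ∀ i j, i ≠ j → ¬ Iso (c i) (c j) :=
  family tabAll tabAll_mem tabAll_nodup

end Pool.Agent.Results.MP_6cabfd_co.ManyConfigurations
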