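import Pool.Agent.H75.Conf21.Tab

/-!
There are at least 7 pairwise non-isomorphic geometric `(21_4)` configurations without a polycyclic
realisation.
-/

namespace Pool.Agent.Results.MP_6cabfd_co.NotPolycyclic

open H75C

/-- There are 7 pairwise non-isomorphic combinatorial `(21_4)` configurations each of which is
geometrically realisable and has no polycyclic realisation. -/
theorem result : ∃ c : Fin 7 → Fin 21 → Fin 21 → Prop,
    (∀ i, IsConf (c i) ∧ Geometric (c i) ∧ ¬ Polycyclic (c i)) ∧
      ∀ i j, i ≠ j → ¬ Iso (c i) (c j) :=
  family tabNot tabNot_mem tabNot_nodup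

end Pool.Agent.Results.MP_6cabfd_co.NotPolycyclic
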